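import Pool.Agent.H705.FP.Stm

set_option autoImplicit false

namespace Pool.Agent.H948.FP

open MeasureTheory ProbabilityTheory Filter Topology Finset
open Pool.Agent.H705 Pool.Agent.H705.FP

/-- extension by zero -/
def ext {N : ℕ} (κ : Fin N → ℤ) (n : ℕ) : ℤ := if h : n < N then κ ⟨n, h⟩ else 0

/-- the bound for the probability of failure -/
noncomputable def bd (A N : ℕ) : ℝ := 6 * Real.exp 6 * (((N + 2 : ℕ) : ℝ) ^ (4 * A + 4) * Real.exp (-3 * ((N + 2 : ℕ) : ℝ)))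

theorem summable_bd (A : ℕ) : Summable (bd A) := by
  have h := Real.summable_pow_mul_exp_neg_nat_mul (4 * A + 4) (r := 3) (by norm_num)
  have h2 := (summable_nat_add_iff 2).2 h
  exact h2.mul_left _

theorem num (K A N : ℕ) : (2 * (K : ℝ) + 1) ^ N * 3 * (N : ℝ) ^ 4 *
    (2 * Real.exp (-((2 * (K : ℝ) + 3) * N)) * ((N : ℝ) ^ 4 + 2) ^ A) ≤ bd A N := by
  have h1 : (2 * (K : ℝ) + 1) ^ N ≤ Real.exp (2 * K * N) := by
    have : Real.exp (2 * K * N) = Real.exp (2 * K) ^ N := by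
      rw [← Real.exp_nat_mul]
      congr 1
      ring
    rw [this]
    gcongr
    exact Real.add_one_le_exp _
  have hN : (0 : ℝ) ≤ N := Nat.cast_nonneg N
  have h2 : (N : ℝ) ^ 4 ≤ ((N : ℝ) + 2) ^ 4 := by
    gcongr
    linarith
  have h3 : (N : ℝ) ^ 4 + 2 ≤ ((N : ℝ) + 2) ^ 4 := by
    have e : ((N : ℝ) + 2) ^ 4 = (N : ℝ) ^ 4 + 8 * (N : ℝ) ^ 3 + 24 * (N : ℝ) ^ 2 + 32 * N + 16 := by ring
    rw [e]
    have : 0 ≤ 8 * (N : ℝ) ^ 3 + 24 * (N : ℝ) ^ 2 + 32 * N := by positivity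
    linarith
  have h4 : ((N : ℝ) ^ 4 + 2) ^ A ≤ (((N : ℝ) + 2) ^ 4) ^ A := by
    gcongr
  unfold bd
  calc (2 * (K : ℝ) + 1) ^ N * 3 * (N : ℝ) ^ 4 * (2 * Real.exp (-((2 * (K : ℝ) + 3) * N)) * ((N : ℝ) ^ 4 + 2) ^ A)
      ≤ Real.exp (2 * K * N) * 3 * ((N : ℝ) + 2) ^ 4 *
        (2 * Real.exp (-((2 * (K : ℝ) + 3) * N)) * (((N : ℝ) + 2) ^ 4) ^ A) := by
        gcongr
    _ = 6 * (((N : ℝ) + 2) ^ (4 * A + 4)) * (Real.exp (2 * K * N) * Real.exp (-((2 * (K : ℝ) + 3) * N))) := by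
        rw [pow_add, pow_mul]
        ring
    _ = 6 * (((N : ℝ) + 2) ^ (4 * A + 4)) * (Real.exp 6 * Real.exp (-3 * ((N : ℝ) + 2))) := by
        congr 1
        rw [← Real.exp_add, ← Real.exp_add]
        congr 1
        ring
    _ = 6 * Real.exp 6 * (((N + 2 : ℕ) : ℝ) ^ (4 * A + 4) * Real.exp (-3 * ((N + 2 : ℕ) : ℝ))) := by
        push_cast
        ring

theorem T_SEP (hLIN : P_LIN) : P_SEP := by
  intro Ω _ P U hU A g w hw
  rw [ae_all_iff]
  intro K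
  have hP := hU.prob
  set γ : Ω → ℕ → ℝ := fun ω => om g w fun n => U n ω with hγ
  -- the failure events
  let η : ℕ → ℝ := fun N => Real.exp (-((2 * (K : ℝ) + 3) * N))
  let S : (N : ℕ) → (Fin N → ℤ) → ℤ → ℕ → Set Ω := fun N κ s m =>
    {ω | ((∃ n < N, ext κ n ≠ 0) ∨ s ≠ 0) ∧
      |∑ n ∈ range N, (ext κ n : ℝ) * γ ω n + (s : ℝ) * γ ω m| < η N}
  let B : ℕ → Set Ω := fun N => ⋃ κ ∈ Fintype.piFinset (fun _ : Fin N => Finset.Icc (-(K : ℤ)) K),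
    ⋃ s ∈ Finset.Icc (-1 : ℤ) 1, ⋃ m ∈ Finset.Ico N (N ^ 4), S N κ s m
  have hsub : ∀ N : ℕ, {ω | ¬ FP.Sep (γ ω) K (2 * K + 3) N} ⊆ B N := by
    intro N ω hω
    have hω' : ¬ FP.Sep (γ ω) K (2 * K + 3) N := hω
    unfold FP.Sep at hω'
    simp only [not_forall, not_le] at hω'
    obtain ⟨k, hk, s, hs, m, hm1, hm2, hne, hlt⟩ := hω'
    have hext : ∀ n < N, ext (fun i : Fin N => k i) n = k n := by
      intro n hn
      simp [ext, hn]
    refine Set.mem_biUnion (x := fun i : Fin N => k i) ?_ (Set.mem_biUnion (x := s) ?_ (Set.mem_biUnion (x := m) ?_ ?_))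
    · rw [Finset.mem_coe, Fintype.mem_piFinset]
      intro i
      rw [Finset.mem_Icc, ← abs_le]
      exact hk i
    · rw [Finset.mem_coe, Finset.mem_Icc, ← abs_le]
      exact hs
    · rw [Finset.mem_coe, Finset.mem_Ico]
      exact ⟨hm1, hm2⟩
    · refine ⟨?_, ?_⟩
      · rcases hne with ⟨n, hn, hn0⟩ | h
        · left
          exact ⟨n, hn, by rw [hext n hn]; exact hn0⟩
        · right
          exact h
      · have e : ∑ n ∈ range N, (ext (fun i : Fin N => k i) n : ℝ) * γ ω n =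
            ∑ n ∈ range N, (k n : ℝ) * γ ω n := by
          refine Finset.sum_congr rfl fun n hn => ?_
          rw [hext n (Finset.mem_range.1 hn)]
        rw [e]
        exact hlt
  have hS : ∀ (N : ℕ) (κ : Fin N → ℤ) (s : ℤ) (m : ℕ), m ∈ Finset.Ico N (N ^ 4) →
      P (S N κ s m) ≤ ENNReal.ofReal (2 * η N * ((N : ℝ) ^ 4 + 2) ^ A) := by
    intro N κ s m hm
    rw [Finset.mem_Ico] at hm
    by_cases hc : (∃ n < N, ext κ n ≠ 0) ∨ s ≠ 0
    · refine le_trans (measure_mono ?_) (hLIN Ω P U hU A g w hw N (ext κ) s m hm.1 hm.2 hc (η N)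
        (Real.exp_pos _).le)
      intro ω hω
      exact hω.2
    · have : S N κ s m = ∅ := Set.eq_empty_of_forall_notMem fun ω h => hc h.1
      rw [this, measure_empty]
      positivity
  have hB : ∀ N : ℕ, P (B N) ≤ ENNReal.ofReal (bd A N) := by
    intro N
    have h1 : P (B N) ≤ ∑ κ ∈ Fintype.piFinset (fun _ : Fin N => Finset.Icc (-(K : ℤ)) K),
        ∑ s ∈ Finset.Icc (-1 : ℤ) 1, ∑ m ∈ Finset.Ico N (N ^ 4),
          ENNReal.ofReal (2 * η N * ((N : ℝ) ^ 4 + 2) ^ A) := by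
      refine le_trans (measure_biUnion_finset_le _ _) (Finset.sum_le_sum fun κ _ => ?_)
      refine le_trans (measure_biUnion_finset_le _ _) (Finset.sum_le_sum fun s _ => ?_)
      refine le_trans (measure_biUnion_finset_le _ _) (Finset.sum_le_sum fun m hm => ?_)
      exact hS N κ s m hm
    refine le_trans h1 ?_
    simp only [Finset.sum_const, nsmul_eq_mul]
    have hc1 : (Fintype.piFinset (fun _ : Fin N => Finset.Icc (-(K : ℤ)) K)).card = (2 * K + 1) ^ N := by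
      rw [Fintype.card_piFinset]
      simp only [Int.card_Icc, Finset.prod_const, Finset.card_univ, Fintype.card_fin]
      congr 1
      omega
    have hc2 : (Finset.Icc (-1 : ℤ) 1).card = 3 := by simp
    rw [hc1, hc2, Nat.card_Ico]
    have hpos : (0 : ℝ) ≤ 2 * η N * ((N : ℝ) ^ 4 + 2) ^ A := by
      have := (Real.exp_pos (-((2 * (K : ℝ) + 3) * N))).le
      positivity
    have e1 : ((((2 * K + 1) ^ N : ℕ) : ENNReal)) * (((3 : ℕ) : ENNReal) * (((N ^ 4 - N : ℕ) : ENNReal) *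
        ENNReal.ofReal (2 * η N * ((N : ℝ) ^ 4 + 2) ^ A))) =
        ENNReal.ofReal ((((2 * K + 1) ^ N : ℕ) : ℝ) * (((3 : ℕ) : ℝ) * (((N ^ 4 - N : ℕ) : ℝ) *
          (2 * η N * ((N : ℝ) ^ 4 + 2) ^ A)))) := by
      rw [ENNReal.ofReal_mul (Nat.cast_nonneg _), ENNReal.ofReal_mul (Nat.cast_nonneg _),
        ENNReal.ofReal_mul (Nat.cast_nonneg _), ENNReal.ofReal_natCast, ENNReal.ofReal_natCast,
        ENNReal.ofReal_natCast]
    rw [e1]
    apply ENNReal.ofReal_le_ofReal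
    refine le_trans ?_ (num K A N)
    have h5 : ((N ^ 4 - N : ℕ) : ℝ) ≤ (N : ℝ) ^ 4 := by
      calc ((N ^ 4 - N : ℕ) : ℝ) ≤ ((N ^ 4 : ℕ) : ℝ) := by exact_mod_cast Nat.sub_le _ _
        _ = (N : ℝ) ^ 4 := by push_cast; ring
    calc (((2 * K + 1) ^ N : ℕ) : ℝ) * (((3 : ℕ) : ℝ) * (((N ^ 4 - N : ℕ) : ℝ) *
          (2 * η N * ((N : ℝ) ^ 4 + 2) ^ A)))
        ≤ (((2 * K + 1) ^ N : ℕ) : ℝ) * (((3 : ℕ) : ℝ) * ((N : ℝ) ^ 4 *
          (2 * η N * ((N : ℝ) ^ 4 + 2) ^ A))) := by gcongr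
      _ = (2 * (K : ℝ) + 1) ^ N * 3 * (N : ℝ) ^ 4 *
          (2 * Real.exp (-((2 * (K : ℝ) + 3) * N)) * ((N : ℝ) ^ 4 + 2) ^ A) := by
          push_cast
          ring
  have hsum : ∑' N, P (B N) ≠ ⊤ :=
    ne_top_of_le_ne_top (summable_bd A).tsum_ofReal_ne_top (ENNReal.tsum_le_tsum hB)
  filter_upwards [ae_eventually_notMem hsum] with ω hω
  obtain ⟨N₀, hN₀⟩ := eventually_atTop.1 hω
  refine ⟨N₀, fun N hN => ?_⟩
  by_contra hc
  exact hN₀ N hN (hsub N hc)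

end Pool.Agent.H948.FP
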